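import Pool.Agent.V1157.KL.Base
import Pool.Agent.Y191.Tens

/-!
# Varieties without tensor differentials and maps to varieties of log general type

Let `V` be any variety of dimension `p ≥ 1` with the function field `K0`, `y 0, …, y n` nonzero
rational functions on `V` whose ratios define a generically finite map of `V` to projective space,
and `B` any set of prime divisors over `V`, such that the complement of `B` and of the zeros and poles
of the ratios `y i / y j` is of log general type; there is no condition on the singularities of these
divisors, and `V` itself may be rational, for instance `V = ℙ^p`. There is a number `μ ≥ 1`, which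
depends only on these data, with the following property. Let `X` be a smooth projective variety of any
dimension with a dominant rational map `X ⇢ V`; the fibres are arbitrary. If
`H⁰ (X, (Ω¹) ^ ⊗ m) = 0` for all `m ≥ 1` then `X` has a prime divisor `P` which does not dominate `V`
and

* either all functions `y i` have the same order along `P`, and `P` lies over a prime divisor in `B`
  with ramification index one,
* or the functions `y i` do not have the same order along `P`, and no two of these orders
  differ by `μ` or more.

In other words: if the multiplicities of the fibres of `X ⇢ V` over the prime divisors in `B` are at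
least `2`, and the orders of the `y i` along a prime divisor of `X` are equal or two of them
differ by at least `μ`, then `X` has a nonzero holomorphic tensor differential, so `X` is not
rationally connected, and Mumford's problem (Q1) has a positive answer for `X`.

The earlier result of this type in the repository (`MP_4329d7_ag.SmallMultiplicityTensors`) is about
subvarieties of `ℙ^n` and hyperplanes in general position which impose independent conditions on the
forms of some degree; here `V` is any variety and the divisors are arbitrary.

The function-field language of the starting repository is used. `K` is the function field of `X`; the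
prime divisors of `X` are places `P` of `K` (`Place`, `Divisorial`), `P.ord` is the order along `P`,
and `X` is given by the set of its prime divisors. A tensor differential of degree `m` is a
`K`-multilinear function of `m` rational vector fields (derivations of `K`); it is holomorphic if its
values on vector fields which are regular at `P` are regular at `P`, for all prime divisors `P` of `X`.
`LogGeneralType ℂ K0 p H`: `V` has dimension `p`, and there are `N ≥ 1` and `p + 1` sections of
`N (K + D)`, `D` the union of the prime divisors with the property `H`, whose ratios are algebraically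
independent.

Proof: the tensor differential is the pull back of a section of `N (K + D)` on `V`, multiplied with a
rational function of bounded pole order which vanishes to high order where the `y i` have different
orders (`Pool.Agent.V1157.KL.base_forms`).
-/

set_option autoImplicit false

open Matrix FF Pool.Agent.W602.GT Pool.Agent.W603.LV Pool.Agent.TH143.GT Pool.Agent.Y220.OG
open Pool.Agent.V1157.KL

namespace Pool.Agent.Results.MP_4329d7_ag.LogGeneralTypeTensors

/-- `ω` is a holomorphic tensor differential of degree `m` on `X`, a smooth projective variety of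
dimension `M` which is given by the set of its prime divisors: a section of `(Ω¹) ^ ⊗ m`. -/
def IsHolomorphic {K : Type} [Field K] [Algebra ℂ K] (M : ℕ) (X : Set (Place ℂ K)) {m : ℕ}
    (ω : MultilinearMap K (fun _ : Fin m => Derivation ℂ K K) K) : Prop :=
  ∀ P ∈ X, Divisorial M P → ∀ D : Fin m → Derivation ℂ K K, (∀ j, DerReg P (D j)) → P.Reg (ω D)

/-- `H⁰ (X, (Ω¹) ^ ⊗ m) = 0` for all `m ≥ 1`. -/
def NoTensors {K : Type} [Field K] [Algebra ℂ K] (M : ℕ) (X : Set (Place ℂ K)) : Prop :=
  ∀ m : ℕ, 1 ≤ m → ∀ ω : MultilinearMap K (fun _ : Fin m => Derivation ℂ K K) K,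
    IsHolomorphic M X ω → ω = 0

/-- the tensor differential which belongs to a power of a `p`-form -/
theorem exists_tensor {K : Type} [Field K] [Algebra ℂ K] {p : ℕ} {x : Fin p → K}
    (hx : AlgebraicIndependent ℂ x) {W : ℕ} (hW : 0 < W) {f : K} (hf : f ≠ 0) :
    ∃ ω : MultilinearMap K (fun _ : Fin (W * p) => Derivation ℂ K K) K, ω ≠ 0 ∧
      ∀ P : Place ℂ K, (∀ D : Fin p → Derivation ℂ K K, (∀ i, DerReg P (D i)) →
        Ge P 0 (jac x D ^ W * f)) →
        ∀ D : Fin (W * p) → Derivation ℂ K K, (∀ j, DerReg P (D j)) → P.Reg (ω D) := by
  classical
  obtain ⟨D0, hD0⟩ := Pool.Agent.Y191.exists_dual hx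
  refine ⟨Pool.Agent.TH585.SV.tns x f W, fun h0 => ?_, fun P hP D hD =>
    Pool.Agent.TH585.SV.tns_reg hW (fun E hE _ => hP E hE) D hD⟩
  have h1 : Pool.Agent.TH585.SV.tns x f W (fun j => D0 (finProdFinEquiv.symm j).2) = f := by
    rw [Pool.Agent.TH585.SV.tns_apply, Finset.prod_eq_one, mul_one]
    intro c _
    have h2 : Pool.Agent.TH585.SV.mtx x
        (fun j => D0 (finProdFinEquiv.symm (finProdFinEquiv (c, j))).2) = 1 := by
      refine Matrix.ext fun i j => ?_
      rw [Matrix.one_apply]
      change D0 (finProdFinEquiv.symm (finProdFinEquiv (c, i))).2 (x j) = _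
      rw [Equiv.symm_apply_apply]
      exact hD0 i j
    rw [h2, det_one]
  rw [h0] at h1
  exact hf h1.symm

/-- Let `V` (the function field `K0`, of transcendence degree `p ≥ 1`), `y` and `B` be such that the
complement of `B` and of the zeros and poles of the ratios `y i / y j` is of log general type. There is
`μ ≥ 1` such that the following holds for every smooth projective variety `X` of dimension `M` without
holomorphic tensor differentials of positive degree and every dominant rational map `X ⇢ V`:
there is a prime divisor `P` of `X` which does not dominate `V`, such that the orders of the `y i` along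
`P` differ by less than `μ`, and if they are equal then `P` lies over a prime divisor of `V` in `B`
with ramification index one. -/
theorem result {K0 : Type} [Field K0] [Algebra ℂ K0] [Algebra.EssFiniteType ℂ K0] {n p : ℕ}
    (hp : 1 ≤ p) (y : Fin (n + 1) → K0) (B : Place ℂ K0 → Prop) (hy : ∀ i, y i ≠ 0)
    (halg : ∀ z : K0, IsAlgebraic (IntermediateField.adjoin ℂ (Set.range fun i => y i / y 0)) z)
    (hgt : LogGeneralType ℂ K0 p (fun P => (∃ i, P.ord (y i) ≠ P.ord (y 0)) ∨ B P)) :
    ∃ μ : ℕ, 1 ≤ μ ∧ ∀ (K : Type) [Field K] [Algebra ℂ K] [Algebra K0 K] [IsScalarTower ℂ K0 K]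
      (M : ℕ), Algebra.trdeg ℂ K = M → ∀ X : Set (Place ℂ K), NoTensors M X →
      ∃ P ∈ X, Divisorial M P ∧ (∃ g : K0, P.ord (algebraMap K0 K g) ≠ 0) ∧
        (∀ i j, P.ord (algebraMap K0 K (y i)) < P.ord (algebraMap K0 K (y j)) + μ) ∧
        ((∀ i, P.ord (algebraMap K0 K (y i)) = P.ord (algebraMap K0 K (y 0))) →
          ∃ P0 : Place ℂ K0, B P0 ∧ ∀ z : K0, P.ord (algebraMap K0 K z) = P0.ord z) := by
  obtain ⟨t, W, g, ht, hW, hg0, -, hest⟩ := base_forms K0 n p y B hy halg hgt
  refine ⟨2 * W, by omega, fun K _ _ _ _ M hM X hX => ?_⟩
  by_contra hcon
  push Not at hcon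
  have hinj : Function.Injective (algebraMap K0 K) := (algebraMap K0 K).injective
  have hx : AlgebraicIndependent ℂ (fun b => algebraMap K0 K (t b)) :=
    ht.1.map' (f := IsScalarTower.toAlgHom ℂ K0 K) hinj
  have hf : algebraMap K0 K (g 0) ≠ 0 := fun h => hg0 (hinj (h.trans (map_zero _).symm))
  obtain ⟨ω, hω, hreg⟩ := exists_tensor hx hW hf
  refine hω (hX _ (Nat.mul_pos hW hp) ω fun P hP hPd D hD => hreg P (fun E hE => ?_) D hD)
  obtain ⟨c', hc', hc0⟩ := hest K M hM P hPd 0 E hE 0 le_rfl (by
    by_cases htr : ∀ g : K0, P.ord (algebraMap K0 K g) = 0
    · exact Or.inl htr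
    push Not at htr
    right
    by_cases hlt : ∀ i j, P.ord (algebraMap K0 K (y i)) < P.ord (algebraMap K0 K (y j)) +
        ((2 * W : ℕ) : ℤ)
    · obtain ⟨heq, hne⟩ := hcon P hP hPd htr hlt
      refine Or.inl ⟨heq, fun P0 e hov hB => ?_⟩
      rw [sub_zero, mul_one]
      by_contra hlt2
      push Not at hlt2
      have he2 : e < 2 := by exact_mod_cast hlt2
      have he0 : e ≠ 0 := by
        rintro rfl
        obtain ⟨z, hz⟩ := htr
        apply hz
        rw [hov z]
        simp
      have he1 : e = 1 := by omega
      obtain ⟨z, hz⟩ := hne P0 hB
      apply hz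
      rw [hov z, he1, Nat.cast_one, one_mul]
    · push Not at hlt
      obtain ⟨i, j, hij⟩ := hlt
      refine Or.inr ⟨j, i, ?_⟩
      rw [sub_zero, mul_one]
      exact_mod_cast hij)
  rw [mul_zero, neg_zero] at hc0
  have hc1 : (0 : ℤ) ≤ c' := by exact_mod_cast hc0
  exact hc'.mono hc1

end Pool.Agent.Results.MP_4329d7_ag.LogGeneralTypeTensors
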